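import Pool.Agent.Helper51.GT.Defs

/-! # IDX: the congruence subgroups of the group of skew power series of norm one

(`4 × 4` version of `Pool/Agent/Helper35/GX/IDX.lean`.) -/

set_option autoImplicit false
set_option linter.unusedSimpArgs false

namespace Pool.Agent.Helper51.GT

/-- coefficients below degree `n / 4` vanish -/
def idx_O {K : Type} [Field K] (n : ℤ) (P : PowerSeries K) : Prop :=
  ∀ s : ℕ, 4 * (s : ℤ) < n → PowerSeries.coeff s P = 0

section basic

variable {K : Type} [Field K]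

theorem idx_O_mul {n m : ℤ} {P Q : PowerSeries K} (hP : idx_O n P) (hQ : idx_O m Q) :
    idx_O (n + m) (P * Q) := by
  intro s hs
  rw [PowerSeries.coeff_mul]
  apply Finset.sum_eq_zero
  rintro ⟨a, b⟩ hab
  rw [Finset.HasAntidiagonal.mem_antidiagonal] at hab
  dsimp only at hab ⊢
  by_cases ha : 4 * (a : ℤ) < n
  · rw [hP a ha, zero_mul]
  · rw [hQ b (by have : (a : ℤ) + b = s := by exact_mod_cast hab
                 omega), mul_zero]

theorem idx_O_add {n : ℤ} {P Q : PowerSeries K} (hP : idx_O n P) (hQ : idx_O n Q) :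
    idx_O n (P + Q) := by
  intro s hs
  rw [map_add, hP s hs, hQ s hs, add_zero]

theorem idx_O_zero {n : ℤ} (hn : n ≤ 0) (P : PowerSeries K) : idx_O n P := by
  intro s hs
  omega

theorem idx_O_prod {ι : Type} (t : Finset ι) (n : ι → ℤ) (P : ι → PowerSeries K)
    (h : ∀ i ∈ t, idx_O (n i) (P i)) : idx_O (∑ i ∈ t, n i) (∏ i ∈ t, P i) := by
  classical
  induction t using Finset.induction_on with
  | empty => 
    rw [Finset.sum_empty, Finset.prod_empty]
    exact idx_O_zero le_rfl _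
  | insert a t ha ih =>
    rw [Finset.sum_insert ha, Finset.prod_insert ha]
    exact idx_O_mul (h a (Finset.mem_insert_self a t))
      (ih (fun i hi => h i (Finset.mem_insert_of_mem hi)))

theorem idx_Filp {d : ℕ} {M : PMat K} :
    Filp d M ↔ ∀ i j : Fin 4, idx_O ((d : ℤ) + (i : ℕ) - (j : ℕ)) (M i j) := by
  unfold Filp idx_O
  constructor
  · intro h i j s hs
    exact h i j s (by omega)
  · intro h i j s hs
    exact h i j s (by omega)

theorem idx_Filp_mul {d e : ℕ} {M N : PMat K} (hM : Filp d M) (hN : Filp e N) :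
    Filp (d + e) (M * N) := by
  rw [idx_Filp] at *
  intro i j
  rw [Matrix.mul_apply]
  intro s hs
  rw [map_sum]
  apply Finset.sum_eq_zero
  intro k _
  apply idx_O_mul (hM i k) (hN k j) s
  push_cast at hs ⊢
  omega

theorem idx_Filp_add {d : ℕ} {M N : PMat K} (hM : Filp d M) (hN : Filp d N) : Filp d (M + N) := by
  intro i j s hs
  rw [Matrix.add_apply, map_add, hM i j s hs, hN i j s hs, add_zero]

theorem idx_Filp_sub {d : ℕ} {M N : PMat K} (hM : Filp d M) (hN : Filp d N) : Filp d (M - N) := by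
  intro i j s hs
  rw [Matrix.sub_apply, map_sub, hM i j s hs, hN i j s hs, sub_zero]

theorem idx_Filp_neg {d : ℕ} {M : PMat K} (hM : Filp d M) : Filp d (-M) := by
  intro i j s hs
  rw [Matrix.neg_apply, map_neg, hM i j s hs, neg_zero]

theorem idx_Filp_zero {d : ℕ} : Filp d (0 : PMat K) := by
  intro i j s _
  rw [Matrix.zero_apply, map_zero]

theorem idx_Filp_mono {d e : ℕ} (h : e ≤ d) {M : PMat K} (hM : Filp d M) : Filp e M :=
  fun i j s hs => hM i j s (by omega)

end basic

/-! ### the relations -/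

section circ

variable {K : Type} [Field K] {φ : K ≃+* K}

theorem idx_fr4 (x : K) : fr φ 4 x = fr φ 2 (fr φ 2 x) := by
  show ((φ : K →+* K) ^ 4) x = ((φ : K →+* K) ^ 2) (((φ : K →+* K) ^ 2) x)
  rw [show (4 : ℕ) = 2 + 2 from rfl, pow_add]
  rfl

theorem idx_fr6 (x : K) : fr φ 6 x = fr φ 2 (fr φ 2 (fr φ 2 x)) := by
  show ((φ : K →+* K) ^ 6) x =
    ((φ : K →+* K) ^ 2) (((φ : K →+* K) ^ 2) (((φ : K →+* K) ^ 2) x))
  rw [show (6 : ℕ) = 2 + (2 + 2) from rfl, pow_add, pow_add]
  rfl

/-- the entries of a matrix of skew power series -/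
structure idx_E (σ : K →+* K) (M : PMat K) : Prop where
  e0 : ∀ i : Fin 3, M i.succ 0 = PowerSeries.map σ (M i.castSucc 3) * PowerSeries.X
  e1 : ∀ i j : Fin 3, M i.succ j.succ = PowerSeries.map σ (M i.castSucc j.castSucc)

theorem idx_circ_E {M : PMat K} (h : Circ φ M) : idx_E (fr φ 2) M := by
  unfold Circ at h
  have h' : ∀ i j : Fin 4, (M.map (PowerSeries.map (fr φ 2)) * Zp : PMat K) i j =
      (Zp * M : PMat K) i j := by
    intro i j
    rw [h]
  refine ⟨fun i => ?_, fun i j => ?_⟩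
  · have := h' i.castSucc 0
    fin_cases i <;> simp [Matrix.mul_apply, Fin.sum_univ_four, Zp] at this ⊢ <;> exact this.symm
  · have := h' i.castSucc j.succ
    fin_cases i <;> fin_cases j <;>
      simp [Matrix.mul_apply, Fin.sum_univ_four, Zp] at this ⊢ <;> exact this.symm

theorem idx_circ_one : Circ φ (1 : PMat K) := by
  unfold Circ
  rw [Matrix.map_one _ (map_zero _) (map_one _), one_mul, mul_one]

theorem idx_circ_mul {M N : PMat K} (hM : Circ φ M) (hN : Circ φ N) : Circ φ (M * N) := by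
  unfold Circ at *
  rw [Matrix.map_mul, mul_assoc, hN, ← mul_assoc, hM, mul_assoc]

theorem idx_circ_sub {M N : PMat K} (hM : Circ φ M) (hN : Circ φ N) : Circ φ (M - N) := by
  unfold Circ at *
  have : (M - N).map (PowerSeries.map (fr φ 2)) = M.map (PowerSeries.map (fr φ 2)) -
      N.map (PowerSeries.map (fr φ 2)) := by
    ext i j
    simp
  rw [this, sub_mul, hM, hN, mul_sub]

theorem idx_circ_inv (g : (PMat K)ˣ) (h : Circ φ g.val) : Circ φ g⁻¹.val := by
  unfold Circ at *
  have h1 : g⁻¹.val.map (PowerSeries.map (fr φ 2)) * g.val.map (PowerSeries.map (fr φ 2)) = 1 := by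
    rw [← Matrix.map_mul, Units.inv_mul, Matrix.map_one _ (map_zero _) (map_one _)]
  calc g⁻¹.val.map (PowerSeries.map (fr φ 2)) * Zp
      = g⁻¹.val.map (PowerSeries.map (fr φ 2)) * (Zp * g.val) * g⁻¹.val := by
        rw [mul_assoc, mul_assoc, Units.mul_inv, mul_one]
    _ = g⁻¹.val.map (PowerSeries.map (fr φ 2)) *
          (g.val.map (PowerSeries.map (fr φ 2)) * Zp) * g⁻¹.val := by rw [h]
    _ = Zp * g⁻¹.val := by rw [← mul_assoc, h1, one_mul]

theorem idx_coeff_shift {σ : K →+* K} (P : PowerSeries K) (s : ℕ) :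
    PowerSeries.coeff (s + 1) (PowerSeries.map σ P * PowerSeries.X) =
      σ (PowerSeries.coeff s P) := by
  rw [PowerSeries.coeff_succ_mul_X, PowerSeries.coeff_map]

theorem idx_coeff_shift0 (P : PowerSeries K) :
    PowerSeries.coeff 0 (P * PowerSeries.X) = 0 := by
  rw [PowerSeries.coeff_zero_mul_X]

/-- the coefficient of degree `m` -/
noncomputable def idx_cf (m : ℕ) (M : PMat K) : K :=
  PowerSeries.coeff (m / 4) (M 0 ⟨m % 4, Nat.mod_lt _ (by norm_num)⟩)

theorem idx_cf_eq {m s : ℕ} {j : Fin 4} (h : 4 * s + (j : ℕ) = m) (M : PMat K) :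
    idx_cf m M = PowerSeries.coeff s (M 0 j) := by
  unfold idx_cf
  have h1 : m / 4 = s := by omega
  have h2 : (⟨m % 4, Nat.mod_lt _ (by norm_num)⟩ : Fin 4) = j := by
    apply Fin.ext
    show m % 4 = (j : ℕ)
    omega
  rw [h1, h2]

theorem idx_fil {σ : K →+* K} {M : PMat K} (hE : idx_E σ M) {d : ℕ}
    (h0 : ∀ (j : Fin 4) (s : ℕ), 4 * s + (j : ℕ) < d → PowerSeries.coeff s (M 0 j) = 0) :
    Filp d M := by
  intro i
  induction i using Fin.induction with
  | zero =>
    intro j s hs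
    exact h0 j s (by simpa using hs)
  | succ i ih =>
    intro j s hs
    rw [Fin.val_succ] at hs
    have hi : ((i.castSucc : Fin 4) : ℕ) = (i : ℕ) := Fin.val_castSucc i
    refine Fin.cases ?_ (fun j => ?_) j (motive := fun j : Fin 4 =>
      4 * s + (j : ℕ) < d + ((i : ℕ) + 1) → PowerSeries.coeff s (M i.succ j) = 0) hs
    · intro hs
      rw [hE.e0]
      cases s with
      | zero => exact idx_coeff_shift0 _
      | succ s =>
        rw [idx_coeff_shift, ih 3 s ?_, map_zero]
        rw [hi]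
        have : ((3 : Fin 4) : ℕ) = 3 := rfl
        rw [this]
        simp only [Fin.val_zero] at hs
        omega
    · intro hs
      rw [hE.e1, PowerSeries.coeff_map, ih _ s ?_, map_zero]
      rw [hi, Fin.val_castSucc]
      rw [Fin.val_succ] at hs
      omega

theorem idx_step {σ : K →+* K} {M : PMat K} (hE : idx_E σ M) {m : ℕ} (hF : Filp m M)
    (h0 : idx_cf m M = 0) : Filp (m + 1) M := by
  apply idx_fil hE
  intro j s hs
  by_cases hlt : 4 * s + (j : ℕ) < m
  · exact hF 0 j s (by simpa using hlt)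
  · rw [← idx_cf_eq (m := m) (by omega)]
    exact h0

theorem idx_Filp0 {σ : K →+* K} {M : PMat K} (hE : idx_E σ M) : Filp 0 M := by
  apply idx_fil hE
  intro j s hs
  omega

theorem idx_diag {σ : K →+* K} {M : PMat K} (hE : idx_E σ M) (s : ℕ) :
    PowerSeries.coeff s (M 1 1) = σ (PowerSeries.coeff s (M 0 0)) ∧
    PowerSeries.coeff s (M 2 2) = σ (σ (PowerSeries.coeff s (M 0 0))) ∧
    PowerSeries.coeff s (M 3 3) = σ (σ (σ (PowerSeries.coeff s (M 0 0)))) := by
  have h1 : M 1 1 = PowerSeries.map σ (M 0 0) := hE.e1 0 0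
  have h2 : M 2 2 = PowerSeries.map σ (M 1 1) := hE.e1 1 1
  have h3 : M 3 3 = PowerSeries.map σ (M 2 2) := hE.e1 2 2
  refine ⟨?_, ?_, ?_⟩
  · rw [h1, PowerSeries.coeff_map]
  · rw [h2, PowerSeries.coeff_map, h1, PowerSeries.coeff_map]
  · rw [h3, PowerSeries.coeff_map, h2, PowerSeries.coeff_map, h1, PowerSeries.coeff_map]

/-- the constant coefficient has norm one -/
theorem idx_norm {M : PMat K} (hE : idx_E (fr φ 2) M) (hd : M.det = 1) :
    idx_cf 0 M * fr φ 2 (idx_cf 0 M) * fr φ 4 (idx_cf 0 M) * fr φ 6 (idx_cf 0 M) = 1 := by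
  have hF := idx_Filp0 hE
  have hc : idx_cf 0 M = PowerSeries.coeff 0 (M 0 0) := idx_cf_eq (j := 0) (by simp) M
  obtain ⟨h1, h2, h3⟩ := idx_diag hE 0
  have h := congrArg (PowerSeries.constantCoeff (R := K)) hd
  rw [RingHom.map_det, map_one, Matrix.det_of_isUpperTriangular, Fin.prod_univ_four] at h
  · simp only [RingHom.mapMatrix_apply, Matrix.map_apply] at h
    simp only [PowerSeries.coeff_zero_eq_constantCoeff] at h1 h2 h3 hc
    rw [h1, h2, h3] at h
    rw [hc, idx_fr4, idx_fr6]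
    exact h
  · intro i j hij
    have hij' : (j : ℕ) < (i : ℕ) := hij
    have := hF i j 0 (by omega)
    rw [PowerSeries.coeff_zero_eq_constantCoeff] at this
    rw [RingHom.mapMatrix_apply, Matrix.map_apply]
    exact this

/-- a nontrivial term of the Leibniz formula -/
theorem idx_leib {M : PMat K} {m : ℕ} (hm : 1 ≤ m) (hF : Filp m M) (τ : Equiv.Perm (Fin 4)) (hτ : τ ≠ 1) :
    idx_O (m + 1) (∏ i, (1 + M) (τ i) i) := by
  have hO := idx_Filp.1 hF
  have hP : ∀ i ∈ (Finset.univ : Finset (Fin 4)),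
      idx_O ((if τ i = i then (0 : ℤ) else m) + (((τ i : Fin 4) : ℕ) : ℤ) - ((i : ℕ) : ℤ))
        ((1 + M) (τ i) i) := by
    intro i _
    by_cases h : τ i = i
    · rw [if_pos h, h]
      exact idx_O_zero (by omega) _
    · rw [if_neg h, Matrix.add_apply, Matrix.one_apply_ne h, zero_add]
      exact hO _ _
  have key := idx_O_prod _ _ _ hP
  intro s hs
  apply key s
  have e1 : ∑ i, (((τ i : Fin 4) : ℕ) : ℤ) = ∑ i : Fin 4, ((i : ℕ) : ℤ) :=
    Equiv.sum_comp τ (fun i : Fin 4 => ((i : ℕ) : ℤ))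
  rw [Finset.sum_sub_distrib, Finset.sum_add_distrib, e1, add_sub_cancel_right]
  obtain ⟨i, hi⟩ : ∃ i, τ i ≠ i := by
    by_contra hcon
    push Not at hcon
    exact hτ (Equiv.ext hcon)
  have hi2 : τ (τ i) ≠ τ i := fun h => hi (τ.injective h)
  have hsum : (m : ℤ) + m ≤ ∑ k, (if τ k = k then (0 : ℤ) else m) := by
    have hsub : ({i, τ i} : Finset (Fin 4)) ⊆ Finset.univ := Finset.subset_univ _
    calc (m : ℤ) + m = ∑ k ∈ ({i, τ i} : Finset (Fin 4)), (if τ k = k then (0 : ℤ) else m) := by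
          rw [Finset.sum_pair (fun h => hi h.symm), if_neg hi, if_neg hi2]
      _ ≤ _ := Finset.sum_le_sum_of_subset_of_nonneg hsub (by
          intro k _ _
          split_ifs
          · exact le_rfl
          · omega)
  omega

/-- the first coefficient of a norm one element close to one has trace zero -/
theorem idx_trace {g : PMat K} (hE : idx_E (fr φ 2) (g - 1)) (hd : g.det = 1) {s : ℕ} (hs : 1 ≤ s)
    (hF : Filp (4 * s) (g - 1)) : tr4 φ (idx_cf (4 * s) (g - 1)) = 0 := by
  set M := g - 1 with hM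
  have hO := idx_Filp.1 hF
  have hc : idx_cf (4 * s) M = PowerSeries.coeff s (M 0 0) := idx_cf_eq (j := 0) (by simp) M
  obtain ⟨h11, h22, h33⟩ := idx_diag hE s
  have hg : g = 1 + M := by
    rw [hM]
    abel
  have hD : ∀ i : Fin 4, idx_O (4 * s) (M i i) := by
    intro i
    have := hO i i
    intro k hk
    apply this k
    push_cast
    omega
  have h := congrArg (PowerSeries.coeff s) hd
  have hone : PowerSeries.coeff s (1 : PowerSeries K) = 0 := by
    rw [PowerSeries.coeff_one, if_neg (by omega)]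
  rw [hone, Matrix.det_apply, map_sum, Finset.sum_eq_single (1 : Equiv.Perm (Fin 4))] at h
  · rw [Equiv.Perm.sign_one, one_smul, Fin.prod_univ_four] at h
    simp only [Equiv.Perm.one_apply] at h
    rw [hg] at h
    simp only [Matrix.add_apply, Matrix.one_apply_eq] at h
    have e : (1 + M 0 0) * (1 + M 1 1) * (1 + M 2 2) * (1 + M 3 3) =
        1 + (M 0 0 + M 1 1 + M 2 2 + M 3 3) + ((M 0 0 + M 1 1 + M 2 2) * M 3 3 +
          (M 0 0 * M 1 1 * (1 + M 2 2) + (M 0 0 + M 1 1) * M 2 2) * (1 + M 3 3)) := by ring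
    have hz : PowerSeries.coeff s ((M 0 0 + M 1 1 + M 2 2) * M 3 3 +
          (M 0 0 * M 1 1 * (1 + M 2 2) + (M 0 0 + M 1 1) * M 2 2) * (1 + M 3 3)) = 0 := by
      rw [map_add]
      have z1 : PowerSeries.coeff s ((M 0 0 + M 1 1 + M 2 2) * M 3 3) = 0 := by
        apply idx_O_mul (idx_O_add (idx_O_add (hD 0) (hD 1)) (hD 2)) (hD 3) s
        omega
      have z2 : idx_O ((4 * s : ℕ) + (4 * s : ℕ) + 0)
          ((M 0 0 * M 1 1 * (1 + M 2 2) + (M 0 0 + M 1 1) * M 2 2) * (1 + M 3 3)) := by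
        apply idx_O_mul _ (idx_O_zero le_rfl _)
        apply idx_O_add
        · have := idx_O_mul (idx_O_mul (hD 0) (hD 1)) (idx_O_zero le_rfl (1 + M 2 2))
          rw [add_zero] at this
          push_cast
          exact this
        · have := idx_O_mul (idx_O_add (hD 0) (hD 1)) (hD 2)
          push_cast
          exact this
      rw [z1, z2 s (by push_cast; omega), add_zero]
    rw [e, map_add, hz, map_add, hone, map_add, map_add, map_add, h11, h22, h33, zero_add,
      add_zero] at h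
    rw [hc]
    unfold tr4
    rw [idx_fr4, idx_fr6]
    exact h
  · intro τ _ hτ
    have := idx_leib (m := 4 * s) (by omega) hF τ hτ
    rw [← hg] at this
    rw [Units.smul_def, map_zsmul, this s (by push_cast; omega), smul_zero]
  · intro h1
    exact absurd (Finset.mem_univ _) h1

end circ

/-! ### index -/

theorem idx_index {G S : Type} [Group G] [Finite S] (H : Subgroup G) (f : G → S)
    (h : ∀ x y, f x = f y → x⁻¹ * y ∈ H) : H.index ≠ 0 ∧ H.index ≤ Nat.card S := by
  have hinj : Function.Injective (fun q : G ⧸ H => f q.out) := by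
    intro q q' hq
    have := h _ _ hq
    rw [← QuotientGroup.eq] at this
    rwa [QuotientGroup.out_eq', QuotientGroup.out_eq'] at this
  have hfin : Finite (G ⧸ H) := Finite.of_injective _ hinj
  refine ⟨?_, ?_⟩
  · rw [Subgroup.index]
    exact Nat.card_pos.ne'
  · rw [Subgroup.index]
    exact Nat.card_le_card_of_injective _ hinj

section group

variable {K : Type} [Field K] {φ : K ≃+* K}

/-- the group -/
def idx_G (φ : K ≃+* K) : Subgroup (PMat K)ˣ where
  carrier := {g | Circ φ g.val ∧ g.val.det = 1}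
  mul_mem' := by
    rintro a b ⟨ha, ha'⟩ ⟨hb, hb'⟩
    refine ⟨?_, ?_⟩
    · rw [Units.val_mul]
      exact idx_circ_mul ha hb
    · rw [Units.val_mul, Matrix.det_mul, ha', hb', one_mul]
  one_mem' := by
    refine ⟨?_, ?_⟩
    · rw [Units.val_one]
      exact idx_circ_one
    · rw [Units.val_one, Matrix.det_one]
  inv_mem' := by
    rintro a ⟨ha, ha'⟩
    refine ⟨idx_circ_inv a ha, ?_⟩
    have h : (a⁻¹.val * a.val).det = 1 := by rw [Units.inv_mul, Matrix.det_one]
    rw [Matrix.det_mul, ha', mul_one] at h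
    exact h

theorem idx_G_circ (g : idx_G φ) : Circ φ g.val.val := g.2.1

theorem idx_G_E (g : idx_G φ) : idx_E (fr φ 2) g.val.val := idx_circ_E g.2.1

theorem idx_G_E1 (g : idx_G φ) : idx_E (fr φ 2) (g.val.val - 1) :=
  idx_circ_E (idx_circ_sub g.2.1 idx_circ_one)

theorem idx_G_F0 (g : idx_G φ) : Filp 0 g.val.val := idx_Filp0 (idx_G_E g)

theorem idx_left {d : ℕ} (g : idx_G φ) {M : PMat K} (h : Filp d M) : Filp d (g.val.val * M) := by
  have := idx_Filp_mul (idx_G_F0 g) h
  rwa [Nat.zero_add] at this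

theorem idx_right {d : ℕ} (g : idx_G φ) {M : PMat K} (h : Filp d M) : Filp d (M * g.val.val) := by
  have := idx_Filp_mul h (idx_G_F0 g)
  rwa [Nat.add_zero] at this

theorem idx_inv_val (g : idx_G φ) : (g⁻¹ : idx_G φ).val.val = g.val⁻¹.val := rfl

theorem idx_mul_val (g h : idx_G φ) : (g * h : idx_G φ).val.val = g.val.val * h.val.val := rfl

theorem idx_inv_mul (g : idx_G φ) : (g⁻¹ : idx_G φ).val.val * g.val.val = 1 := by
  rw [idx_inv_val, Units.inv_mul]

theorem idx_mul_inv (g : idx_G φ) : g.val.val * (g⁻¹ : idx_G φ).val.val = 1 := by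
  rw [idx_inv_val, Units.mul_inv]

/-- congruence subgroups -/
def idx_N (φ : K ≃+* K) (d : ℕ) : Subgroup (idx_G φ) where
  carrier := {g | Filp d (g.val.val - 1)}
  mul_mem' := by
    intro a b ha hb
    have e : (a * b : idx_G φ).val.val - 1 = (a.val.val - 1) * b.val.val + (b.val.val - 1) := by
      rw [idx_mul_val, sub_mul, one_mul]
      abel
    show Filp d _
    rw [e]
    exact idx_Filp_add (idx_right b ha) hb
  one_mem' := by
    show Filp d _
    have e : ((1 : idx_G φ)).val.val - 1 = (0 : PMat K) := sub_self _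
    rw [e]
    exact idx_Filp_zero
  inv_mem' := by
    intro a ha
    show Filp d _
    have e : (a⁻¹ : idx_G φ).val.val - 1 = -((a⁻¹ : idx_G φ).val.val * (a.val.val - 1)) := by
      rw [mul_sub, idx_inv_mul, mul_one]
      abel
    rw [e]
    exact idx_Filp_neg (idx_left _ ha)

theorem idx_mem_N {d : ℕ} (g : idx_G φ) : g ∈ idx_N φ d ↔ Filp d (g.val.val - 1) := Iff.rfl

theorem idx_normal (d : ℕ) : (idx_N φ d).Normal := by
  refine ⟨fun n hn g => ?_⟩
  rw [idx_mem_N] at *
  have e : (g * n * g⁻¹ : idx_G φ).val.val - 1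
      = g.val.val * (n.val.val - 1) * (g⁻¹ : idx_G φ).val.val := by
    rw [idx_mul_val, idx_mul_val, mul_sub, sub_mul, mul_one, idx_mul_inv]
  rw [e]
  exact idx_right _ (idx_left _ hn)

theorem idx_N_le (d : ℕ) : idx_N φ (d + 1) ≤ idx_N φ d := fun _ hg => idx_Filp_mono (by omega) hg

theorem idx_N_zero : idx_N φ 0 = ⊤ := by
  rw [eq_top_iff]
  intro g _
  exact idx_Filp0 (idx_G_E1 g)

/-- equal coefficients of degree `m` -/
theorem idx_same {m : ℕ} (x y : idx_G φ) (hx : Filp m (y.val.val - x.val.val))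
    (h : idx_cf m (y.val.val - x.val.val) = 0) : x⁻¹ * y ∈ idx_N φ (m + 1) := by
  rw [idx_mem_N]
  have e : (x⁻¹ * y : idx_G φ).val.val - 1 = (x⁻¹ : idx_G φ).val.val * (y.val.val - x.val.val) := by
    rw [idx_mul_val, mul_sub, idx_inv_mul]
  rw [e]
  exact idx_left _ (idx_step (idx_circ_E (idx_circ_sub y.2.1 x.2.1)) hx h)

theorem idx_cf_sub (m : ℕ) (M N : PMat K) : idx_cf m (M - N) = idx_cf m M - idx_cf m N := by
  unfold idx_cf
  rw [Matrix.sub_apply, map_sub]

variable [Finite K]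

theorem idx_rel0 : (idx_N φ 1).index ≠ 0 ∧
    (idx_N φ 1).index ≤ Nat.card {x : K // x * fr φ 2 x * fr φ 4 x * fr φ 6 x = 1} := by
  apply idx_index (idx_N φ 1) (fun g : idx_G φ =>
    (⟨idx_cf 0 g.val.val, idx_norm (idx_G_E g) g.2.2⟩ :
      {x : K // x * fr φ 2 x * fr φ 4 x * fr φ 6 x = 1}))
  intro x y hxy
  have h := congrArg Subtype.val hxy
  dsimp only at h
  apply idx_same
  · exact idx_Filp_sub (idx_G_F0 y) (idx_G_F0 x)
  · rw [idx_cf_sub, h, sub_self]

theorem idx_relm (m : ℕ) : (idx_N φ (m + 1)).relIndex (idx_N φ m) ≠ 0 ∧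
    (idx_N φ (m + 1)).relIndex (idx_N φ m) ≤ Nat.card K := by
  rw [Subgroup.relIndex]
  apply idx_index _ (fun g : idx_N φ m => idx_cf m (g.val.val.val - 1))
  intro x y hxy
  rw [Subgroup.mem_subgroupOf]
  have e : ((x⁻¹ * y : idx_N φ m) : idx_G φ) = x.val⁻¹ * y.val := rfl
  rw [e]
  have e2 : y.val.val.val - x.val.val.val = (y.val.val.val - 1) - (x.val.val.val - 1) := by abel
  apply idx_same
  · rw [e2]
    exact idx_Filp_sub y.2 x.2
  · rw [e2, idx_cf_sub, ← hxy, sub_self]

theorem idx_rel4 (s : ℕ) (hs : 1 ≤ s) :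
    (idx_N φ (4 * s + 1)).relIndex (idx_N φ (4 * s)) ≤ Nat.card {x : K // tr4 φ x = 0} := by
  rw [Subgroup.relIndex]
  refine (idx_index _ (fun g : idx_N φ (4 * s) =>
    (⟨idx_cf (4 * s) (g.val.val.val - 1), idx_trace (idx_G_E1 g.val) g.val.2.2 hs g.2⟩ :
      {x : K // tr4 φ x = 0})) ?_).2
  intro x y hxy
  have h := congrArg Subtype.val hxy
  dsimp only at h
  rw [Subgroup.mem_subgroupOf]
  have e : ((x⁻¹ * y : idx_N φ (4 * s)) : idx_G φ) = x.val⁻¹ * y.val := rfl
  rw [e]
  have e2 : y.val.val.val - x.val.val.val = (y.val.val.val - 1) - (x.val.val.val - 1) := by abel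
  apply idx_same
  · rw [e2]
    exact idx_Filp_sub y.2 x.2
  · rw [e2, idx_cf_sub, ← h, sub_self]

theorem idx_main (n : ℕ) : (idx_N φ (n + 1)).index ≠ 0 ∧
    (idx_N φ (n + 1)).index ≤ Nat.card {x : K // x * fr φ 2 x * fr φ 4 x * fr φ 6 x = 1} *
      Nat.card K ^ (n - n / 4) * Nat.card {x : K // tr4 φ x = 0} ^ (n / 4) := by
  induction n with
  | zero =>
    have := idx_rel0 (φ := φ)
    simpa using this
  | succ n ih =>
    have hmul := Subgroup.relIndex_mul_index (idx_N_le (φ := φ) (n + 1))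
    have hr := idx_relm (φ := φ) (n + 1)
    refine ⟨?_, ?_⟩
    · rw [← hmul]
      exact mul_ne_zero hr.1 ih.1
    · rw [← hmul]
      by_cases h3 : (n + 1) % 4 = 0
      · obtain ⟨s, hs⟩ : ∃ s, n + 1 = 4 * s := ⟨(n + 1) / 4, by omega⟩
        have h1 := idx_rel4 (φ := φ) s (by omega)
        rw [← hs] at h1
        have e1 : (n + 1) / 4 = n / 4 + 1 := by omega
        have e2 : n + 1 - (n / 4 + 1) = n - n / 4 := by omega
        rw [e1, e2, pow_succ]
        calc (idx_N φ (n + 1 + 1)).relIndex (idx_N φ (n + 1)) * (idx_N φ (n + 1)).index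
            ≤ Nat.card {x : K // tr4 φ x = 0} *
              (Nat.card {x : K // x * fr φ 2 x * fr φ 4 x * fr φ 6 x = 1} *
                Nat.card K ^ (n - n / 4) * Nat.card {x : K // tr4 φ x = 0} ^ (n / 4)) :=
              Nat.mul_le_mul h1 ih.2
          _ = _ := by ring
      · have e1 : (n + 1) / 4 = n / 4 := by omega
        have e2 : n + 1 - n / 4 = (n - n / 4) + 1 := by omega
        rw [e1, e2, pow_succ]
        calc (idx_N φ (n + 1 + 1)).relIndex (idx_N φ (n + 1)) * (idx_N φ (n + 1)).index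
            ≤ Nat.card K *
              (Nat.card {x : K // x * fr φ 2 x * fr φ 4 x * fr φ 6 x = 1} *
                Nat.card K ^ (n - n / 4) * Nat.card {x : K // tr4 φ x = 0} ^ (n / 4)) :=
              Nat.mul_le_mul hr.2 ih.2
          _ = _ := by ring

end group

theorem st_IDX : ST_IDX := by
  intro K _ _ φ _
  refine ⟨idx_G φ, fun g => Iff.rfl, fun d hd => ?_⟩
  obtain ⟨n, rfl⟩ : ∃ n, d = n + 1 := ⟨d - 1, by omega⟩
  refine ⟨idx_N φ (n + 1), idx_normal _, fun g => Iff.rfl, ?_⟩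
  rw [Nat.add_sub_cancel]
  exact idx_main n

end Pool.Agent.Helper51.GT
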